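import Mathlib
import Pool.Agent.Helper50.Rec.ArithDefs

/-!
# Taylor expansion of `(N + x) ^ γ` with an error bound
-/

open Finset

namespace Pool.Agent.Helper50.Rec

/-- recursion for the generalised binomial coefficients -/
theorem gb_succ_mul (γ : ℝ) (i : ℕ) : ((i : ℝ) + 1) * gb γ (i + 1) = γ * gb (γ - 1) i := by
  unfold gb
  rw [Finset.prod_range_succ', Nat.factorial_succ]
  have h1 : (∏ k ∈ range i, (γ - ((k + 1 : ℕ) : ℝ))) = ∏ k ∈ range i, (γ - 1 - (k : ℝ)) := by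
    apply Finset.prod_congr rfl
    intro k _
    push_cast
    ring
  rw [h1]
  have h2 : ((i : ℝ) + 1) ≠ 0 := by positivity
  have h3 : ((i.factorial : ℕ) : ℝ) ≠ 0 := by positivity
  push_cast
  field_simp
  ring

theorem gb_zero (γ : ℝ) : gb γ 0 = 1 := by
  simp [gb]

/-- Taylor bound at scale one -/
theorem taylor_one (n : ℕ) : ∀ γ : ℝ, ∃ C : ℝ, 0 ≤ C ∧ ∀ y : ℝ, 0 ≤ y → y ≤ 1 / 2 →
    |(1 + y) ^ γ - ∑ i ∈ range n, gb γ i * y ^ i| ≤ C * y ^ n := by
  induction n with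
  | zero =>
    intro γ
    refine ⟨(3 / 2 : ℝ) ^ |γ|, by positivity, ?_⟩
    intro y hy0 hy1
    simp only [Finset.range_zero, Finset.sum_empty, sub_zero, pow_zero, mul_one]
    have hpos : (0 : ℝ) < 1 + y := by linarith
    rw [abs_of_nonneg (Real.rpow_nonneg hpos.le _)]
    calc (1 + y) ^ γ ≤ (1 + y) ^ |γ| :=
          Real.rpow_le_rpow_of_exponent_le (by linarith) (le_abs_self γ)
      _ ≤ (3 / 2 : ℝ) ^ |γ| :=
          Real.rpow_le_rpow hpos.le (by linarith) (abs_nonneg γ)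
  | succ n ih =>
    intro γ
    obtain ⟨C, hC, h⟩ := ih (γ - 1)
    refine ⟨|γ| * C, by positivity, ?_⟩
    intro y hy0 hy1
    -- the function
    set g : ℝ → ℝ := fun t => (1 + t) ^ γ - ∑ i ∈ range (n + 1), gb γ i * t ^ i with hg
    have hder : ∀ t : ℝ, 0 ≤ t → HasDerivAt g
        (γ * ((1 + t) ^ (γ - 1) - ∑ i ∈ range n, gb (γ - 1) i * t ^ i)) t := by
      intro t ht
      have h1 : HasDerivAt (fun t : ℝ => (1 + t) ^ γ) (1 * γ * (1 + t) ^ (γ - 1)) t := by
        have h0 : HasDerivAt (fun t : ℝ => 1 + t) 1 t := by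
          simpa using (hasDerivAt_id t).const_add 1
        exact h0.rpow_const (Or.inl (by positivity))
      have h2 : HasDerivAt (fun t : ℝ => ∑ i ∈ range (n + 1), gb γ i * t ^ i)
          (∑ i ∈ range (n + 1), gb γ i * ((i : ℝ) * t ^ (i - 1))) t := by
        have := HasDerivAt.fun_sum (u := range (n + 1)) (A := fun (i : ℕ) (t : ℝ) => gb γ i * t ^ i)
          (A' := fun (i : ℕ) => gb γ i * ((i : ℝ) * t ^ (i - 1))) (x := t)
          (fun i _ => (hasDerivAt_pow i t).const_mul (gb γ i))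
        exact this
      have h3 := h1.sub h2
      have h4 : 1 * γ * (1 + t) ^ (γ - 1) - ∑ i ∈ range (n + 1), gb γ i * ((i : ℝ) * t ^ (i - 1)) =
          γ * ((1 + t) ^ (γ - 1) - ∑ i ∈ range n, gb (γ - 1) i * t ^ i) := by
        rw [Finset.sum_range_succ']
        simp only [Nat.cast_zero, zero_mul, mul_zero, add_zero, Nat.add_sub_cancel]
        rw [one_mul, mul_sub, Finset.mul_sum]
        congr 1
        apply Finset.sum_congr rfl
        intro i _
        have := gb_succ_mul γ i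
        push_cast
        calc gb γ (i + 1) * (((i : ℝ) + 1) * t ^ i) = (((i : ℝ) + 1) * gb γ (i + 1)) * t ^ i := by
              ring
          _ = (γ * gb (γ - 1) i) * t ^ i := by rw [this]
          _ = γ * (gb (γ - 1) i * t ^ i) := by ring
      rw [h4] at h3
      exact h3
    have hg0 : g 0 = 0 := by
      simp only [hg]
      rw [Finset.sum_range_succ']
      simp [gb_zero]
    -- mean value inequality
    have hmv : ‖g y - g 0‖ ≤ (|γ| * C * y ^ n) * ‖y - 0‖ := by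
      apply Convex.norm_image_sub_le_of_norm_hasDerivWithin_le (s := Set.Icc 0 y)
        (f' := fun t => γ * ((1 + t) ^ (γ - 1) - ∑ i ∈ range n, gb (γ - 1) i * t ^ i))
      · intro t ht
        exact (hder t ht.1).hasDerivWithinAt
      · intro t ht
        rw [Real.norm_eq_abs, abs_mul, mul_assoc]
        apply mul_le_mul_of_nonneg_left _ (abs_nonneg γ)
        calc |(1 + t) ^ (γ - 1) - ∑ i ∈ range n, gb (γ - 1) i * t ^ i| ≤ C * t ^ n :=
              h t ht.1 (ht.2.trans hy1)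
          _ ≤ C * y ^ n := by
              apply mul_le_mul_of_nonneg_left _ hC
              exact pow_le_pow_left₀ ht.1 ht.2 n
      · exact convex_Icc 0 y
      · exact ⟨le_refl _, hy0⟩
      · exact ⟨hy0, le_refl _⟩
    rw [hg0, sub_zero, sub_zero, Real.norm_eq_abs, Real.norm_eq_abs, abs_of_nonneg hy0] at hmv
    calc |(1 + y) ^ γ - ∑ i ∈ range (n + 1), gb γ i * y ^ i| = |g y| := rfl
      _ ≤ (|γ| * C * y ^ n) * y := hmv
      _ = |γ| * C * y ^ (n + 1) := by ring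

theorem taylor_rpow (γ : ℝ) (D : ℕ) : ∃ C : ℝ, 0 ≤ C ∧ ∀ N x : ℝ, 0 < N → 0 ≤ x → x ≤ N / 2 →
    |(N + x) ^ γ - ∑ i ∈ range (D + 1), gb γ i * N ^ (γ - (i : ℕ)) * x ^ i| ≤
      C * N ^ (γ - (D + 1 : ℕ)) * x ^ (D + 1) := by
  obtain ⟨C, hC, h⟩ := taylor_one (D + 1) γ
  refine ⟨C, hC, ?_⟩
  intro N x hN hx hxN
  have hy0 : 0 ≤ x / N := by positivity
  have hy1 : x / N ≤ 1 / 2 := by
    rw [div_le_iff₀ hN]
    linarith
  have hk := h (x / N) hy0 hy1
  have e1 : ∀ i : ℕ, N ^ γ * (x / N) ^ i = N ^ (γ - (i : ℕ)) * x ^ i := by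
    intro i
    rw [Real.rpow_sub hN, Real.rpow_natCast, div_pow]
    field_simp
  have e2 : (N + x) ^ γ = N ^ γ * (1 + x / N) ^ γ := by
    rw [← Real.mul_rpow hN.le (by positivity)]
    congr 1
    field_simp
  have hNg : 0 ≤ N ^ γ := Real.rpow_nonneg hN.le _
  have e3 : (N + x) ^ γ - ∑ i ∈ range (D + 1), gb γ i * N ^ (γ - (i : ℕ)) * x ^ i =
      N ^ γ * ((1 + x / N) ^ γ - ∑ i ∈ range (D + 1), gb γ i * (x / N) ^ i) := by
    rw [e2, mul_sub, Finset.mul_sum]
    congr 1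
    apply Finset.sum_congr rfl
    intro i _
    rw [mul_assoc, ← e1 i]
    ring
  rw [e3, abs_mul, abs_of_nonneg hNg]
  calc N ^ γ * |(1 + x / N) ^ γ - ∑ i ∈ range (D + 1), gb γ i * (x / N) ^ i|
      ≤ N ^ γ * (C * (x / N) ^ (D + 1)) := mul_le_mul_of_nonneg_left hk hNg
    _ = C * (N ^ γ * (x / N) ^ (D + 1)) := by ring
    _ = C * (N ^ (γ - (D + 1 : ℕ)) * x ^ (D + 1)) := by rw [e1]
    _ = C * N ^ (γ - (D + 1 : ℕ)) * x ^ (D + 1) := by ring

end Pool.Agent.Helper50.Rec
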